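import Mathlib

set_option autoImplicit false
open Filter

namespace Pool.Agent.Helper32.Bridged

/-- No isometric cycle of length at least 4. -/
def NoIso {V : Type} (G : SimpleGraph V) : Prop :=
  ∀ n : ℕ, 4 ≤ n → ∀ c : Fin n → V,
    ¬ ∀ i j : Fin n,
      G.dist (c i) (c j) =
        min ((i : ℕ) - (j : ℕ) + ((j : ℕ) - (i : ℕ)))
            (n - ((i : ℕ) - (j : ℕ) + ((j : ℕ) - (i : ℕ))))

open Classical in
/-- Balls of a graph given by finite neighbour sets. -/
noncomputable def ball {V : Type} (nb : V → Finset V) : ℕ → V → Finset V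
  | 0, z => {z}
  | j + 1, z => (ball nb j z).biUnion (fun w => insert w (nb w))

open Classical in
/-- A good position `z` at scale `H`: between the depths `H` and `2 H` no two points of the ball
of radius `R` around `z` merge or become adjacent, and no new classes appear. -/
structure Good {V : Type} (G : SimpleGraph V) (nb : V → Finset V) (f : V → V)
    (R H : ℕ) (z : V) : Prop where
  inj : ∀ u ∈ ball nb R z, ∀ v ∈ ball nb R z, f^[2 * H] u = f^[2 * H] v → f^[H] u = f^[H] v
  adj : ∀ u ∈ ball nb R z, ∀ v ∈ ball nb R z, G.Adj (f^[2 * H] u) (f^[2 * H] v) →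
    G.Adj (f^[H] u) (f^[H] v)
  ng : ∀ j ≤ R, (ball nb j (f^[H] z)).image (f^[H]) ⊆ (ball nb j z).image (f^[2 * H])

end Pool.Agent.Helper32.Bridged
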