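import Pool.Agent.Helper32.Bridged.Defs

set_option autoImplicit false
open Filter

namespace Pool.Agent.Helper32.Bridged

section balls
variable {V : Type} (nb : V → Finset V)

open Classical in
theorem mem_ball_self (j : ℕ) (z : V) : z ∈ ball nb j z := by
  induction j with
  | zero => simp [ball]
  | succ j ih =>
    simp only [ball, Finset.mem_biUnion]
    exact ⟨z, ih, Finset.mem_insert_self _ _⟩

open Classical in
theorem ball_succ_of_mem {j : ℕ} {z w : V} (h : w ∈ ball nb j z) : w ∈ ball nb (j + 1) z := by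
  simp only [ball, Finset.mem_biUnion]
  exact ⟨w, h, Finset.mem_insert_self _ _⟩

open Classical in
theorem ball_succ_of_nb {j : ℕ} {z w u : V} (h : w ∈ ball nb j z) (hu : u ∈ nb w) :
    u ∈ ball nb (j + 1) z := by
  simp only [ball, Finset.mem_biUnion]
  exact ⟨w, h, Finset.mem_insert_of_mem hu⟩

theorem ball_mono {j k : ℕ} (hjk : j ≤ k) {z w : V} (h : w ∈ ball nb j z) : w ∈ ball nb k z := by
  induction hjk with
  | refl => exact h
  | step _ ih => exact ball_succ_of_mem nb ih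

open Classical in
theorem ball_shift {z z' : V} (hz : z' ∈ ball nb 1 z) {j : ℕ} {w : V} (h : w ∈ ball nb j z') :
    w ∈ ball nb (j + 1) z := by
  induction j generalizing w with
  | zero =>
    simp only [ball, Finset.mem_singleton] at h
    rw [h]; exact hz
  | succ j ih =>
    rw [ball, Finset.mem_biUnion] at h
    obtain ⟨a, ha, hw⟩ := h
    rw [ball, Finset.mem_biUnion]
    exact ⟨a, ih ha, hw⟩

variable {Γ : SimpleGraph V} {f : V → V}

theorem iter_adj (h1 : ∀ x y, Γ.Adj x y → f x = f y ∨ Γ.Adj (f x) (f y)) (H : ℕ) {x y : V}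
    (h : x = y ∨ Γ.Adj x y) : f^[H] x = f^[H] y ∨ Γ.Adj (f^[H] x) (f^[H] y) := by
  induction H with
  | zero => simpa using h
  | succ H ih =>
    rw [Function.iterate_succ_apply', Function.iterate_succ_apply']
    rcases ih with e | e
    · left; rw [e]
    · exact h1 _ _ e

open Classical in
theorem ball_map (hnb : ∀ v w, w ∈ nb v ↔ Γ.Adj v w)
    (h1 : ∀ x y, Γ.Adj x y → f x = f y ∨ Γ.Adj (f x) (f y)) (H : ℕ) {j : ℕ} {z w : V}
    (h : w ∈ ball nb j z) : f^[H] w ∈ ball nb j (f^[H] z) := by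
  induction j generalizing w with
  | zero =>
    simp only [ball, Finset.mem_singleton] at h ⊢
    rw [h]
  | succ j ih =>
    rw [ball, Finset.mem_biUnion] at h
    obtain ⟨a, ha, hw⟩ := h
    rw [Finset.mem_insert] at hw
    have h2 : f^[H] a = f^[H] w ∨ Γ.Adj (f^[H] a) (f^[H] w) := by
      apply iter_adj h1
      rcases hw with hw | hw
      · left; exact hw.symm
      · right; exact (hnb _ _).1 hw
    rcases h2 with h2 | h2
    · rw [← h2]; exact ball_succ_of_mem nb (ih ha)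
    · exact ball_succ_of_nb nb (ih ha) ((hnb _ _).2 h2)

open Classical in
theorem good_ng {R H : ℕ} {z : V} (hg : Good Γ nb f R H z) {j : ℕ} (hj : j ≤ R) {u : V}
    (hu : u ∈ ball nb j (f^[H] z)) : ∃ v ∈ ball nb j z, f^[2 * H] v = f^[H] u := by
  have h7 := hg.ng j hj (Finset.mem_image_of_mem _ hu)
  rw [Finset.mem_image] at h7
  exact h7

end balls

section chordal
variable {V : Type} [LinearOrder V] {Γ : SimpleGraph V} {nb : V → Finset V} {f : V → V}

theorem iter_mono (h1 : ∀ x y, Γ.Adj x y → f x = f y ∨ Γ.Adj (f x) (f y))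
    (h2 : ∀ x y, Γ.Adj x y → x < y → f x ≤ f y) (H : ℕ) {x y : V}
    (h : x = y ∨ Γ.Adj x y) (hle : x ≤ y) : f^[H] x ≤ f^[H] y := by
  induction H with
  | zero => simpa using hle
  | succ H ih =>
    rw [Function.iterate_succ_apply', Function.iterate_succ_apply']
    rcases iter_adj h1 H h with e | e
    · rw [e]
    · exact h2 _ _ e (lt_of_le_of_ne ih e.ne)

/-- images of the ball of radius `j` at depth `2 H` -/
def Cm (nb : V → Finset V) (f : V → V) (H j : ℕ) (z : V) : Set V :=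
  {β | ∃ u ∈ ball nb j z, f^[2 * H] u = β}

/-- later neighbours inside the image of the ball -/
def Fs (Γ : SimpleGraph V) (nb : V → Finset V) (f : V → V) (R H : ℕ) (z β : V) : Set V :=
  {γ | β < γ ∧ Γ.Adj β γ ∧ γ ∈ Cm nb f H R z}

open Classical in
/-- the least element of a set, or a default value -/
noncomputable def nxt (F : Set V) (β : V) : V :=
  if h : ∃ γ ∈ F, ∀ δ ∈ F, γ ≤ δ then h.choose else β

/-- the next vertex -/
noncomputable def nx (Γ : SimpleGraph V) (nb : V → Finset V) (f : V → V) (R H : ℕ) (z β : V) : V :=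
  nxt (Fs Γ nb f R H z β) β

theorem Cm_finite (H j : ℕ) (z : V) : (Cm nb f H j z).Finite := by
  have : Cm nb f H j z = (f^[2 * H]) '' (ball nb j z : Set V) := by
    ext β; simp [Cm]
  rw [this]
  exact (Finset.finite_toSet _).image _

theorem Fs_finite (R H : ℕ) (z β : V) : (Fs Γ nb f R H z β).Finite :=
  (Cm_finite (nb := nb) (f := f) H R z).subset (fun _ h => h.2.2)

theorem nxt_spec {F : Set V} (hF : F.Finite) (hne : F.Nonempty) (β : V) :
    nxt F β ∈ F ∧ ∀ δ ∈ F, nxt F β ≤ δ := by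
  have h : ∃ γ ∈ F, ∀ δ ∈ F, γ ≤ δ := by
    obtain ⟨a, ha, h⟩ := Set.exists_min_image F id hF hne
    exact ⟨a, ha, h⟩
  have e : nxt F β = h.choose := by unfold nxt; rw [dif_pos h]
  rw [e]; exact h.choose_spec

theorem nxt_empty (β : V) : nxt (∅ : Set V) β = β := by
  unfold nxt
  rw [dif_neg]
  rintro ⟨γ, h, _⟩
  exact h.elim

theorem Cm_mono {H j k : ℕ} (hjk : j ≤ k) {z β : V} (h : β ∈ Cm nb f H j z) :
    β ∈ Cm nb f H k z := by
  obtain ⟨u, hu, e⟩ := h
  exact ⟨u, ball_mono nb hjk hu, e⟩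

theorem Cm_shift {H j : ℕ} {z z' β : V} (hz : z' ∈ ball nb 1 z) (h : β ∈ Cm nb f H j z') :
    β ∈ Cm nb f H (j + 1) z := by
  obtain ⟨u, hu, e⟩ := h
  exact ⟨u, ball_shift nb hz hu, e⟩

variable (hnb : ∀ v w, w ∈ nb v ↔ Γ.Adj v w)
  (h1 : ∀ x y, Γ.Adj x y → f x = f y ∨ Γ.Adj (f x) (f y))
  (h2 : ∀ x y, Γ.Adj x y → x < y → f x ≤ f y)
  (h3 : ∀ y u v, Γ.Adj y u → Γ.Adj y v → y < u → y < v → f u = f v ∨ Γ.Adj (f u) (f v))

include hnb h1 in
/-- Claim B -/
theorem claimB {R H j : ℕ} {z β γ : V} (hg : Good Γ nb f R H z) (hj : j < R)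
    (hβ : β ∈ Cm nb f H j z) (hγ : γ ∈ Cm nb f H R z) (hadj : Γ.Adj β γ) :
    γ ∈ Cm nb f H (j + 1) z := by
  obtain ⟨u, hu, rfl⟩ := hβ
  obtain ⟨v, hv, rfl⟩ := hγ
  have h4 := hg.adj u (ball_mono nb hj.le hu) v hv hadj
  have h5 : f^[H] u ∈ ball nb j (f^[H] z) := ball_map nb hnb h1 H hu
  have h6 : f^[H] v ∈ ball nb (j + 1) (f^[H] z) := ball_succ_of_nb nb h5 ((hnb _ _).2 h4)
  obtain ⟨w, hw, e⟩ := good_ng nb hg hj h6
  refine ⟨w, hw, ?_⟩
  rw [e, two_mul, Function.iterate_add_apply]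

include h1 h2 h3 in
/-- Claim A -/
theorem claimA {R H : ℕ} (hH : 1 ≤ H) {z β γ δ : V} (hg : Good Γ nb f R H z)
    (hβ : β ∈ Cm nb f H R z) (hγ : γ ∈ Fs Γ nb f R H z β) (hδ : δ ∈ Fs Γ nb f R H z β) :
    γ = δ ∨ Γ.Adj γ δ := by
  obtain ⟨u, hu, rfl⟩ := hβ
  obtain ⟨g1, g2, v, hv, rfl⟩ := hγ
  obtain ⟨d1, d2, w, hw, rfl⟩ := hδ
  have a1 := hg.adj u hu v hv g2
  have a2 := hg.adj u hu w hw d2
  have ee : ∀ t : V, f^[2 * H] t = f^[H] (f^[H] t) := by
    intro t; rw [two_mul, Function.iterate_add_apply]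
  have o1 : f^[H] u < f^[H] v := by
    rcases lt_trichotomy (f^[H] u) (f^[H] v) with h | h | h
    · exact h
    · exact absurd h a1.ne
    · exfalso
      have := iter_mono h1 h2 H (Or.inr a1.symm) h.le
      rw [← ee, ← ee] at this
      exact absurd g1 (not_lt.2 this)
  have o2 : f^[H] u < f^[H] w := by
    rcases lt_trichotomy (f^[H] u) (f^[H] w) with h | h | h
    · exact h
    · exact absurd h a2.ne
    · exfalso
      have := iter_mono h1 h2 H (Or.inr a2.symm) h.le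
      rw [← ee, ← ee] at this
      exact absurd d1 (not_lt.2 this)
  have h5 := h3 _ _ _ a1 a2 o1 o2
  obtain ⟨K, rfl⟩ : ∃ K, H = K + 1 := ⟨H - 1, by omega⟩
  have h6 := iter_adj h1 K h5
  rw [← Function.iterate_succ_apply, ← Function.iterate_succ_apply] at h6
  rw [ee, ee]
  exact h6

include hnb h1 in
theorem Fs_eq {R H j : ℕ} {z z' β : V} (hg : Good Γ nb f R H z)
    (hz' : z' ∈ ball nb 1 z) (hz : z ∈ ball nb 1 z') (hj : j + 2 ≤ R)
    (hβ : β ∈ Cm nb f H j z) : Fs Γ nb f R H z β ⊆ Fs Γ nb f R H z' β := by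
  rintro γ ⟨g1, g2, g3⟩
  refine ⟨g1, g2, ?_⟩
  have := claimB hnb h1 hg (by omega) hβ g3 g2
  exact Cm_mono hj (Cm_shift hz this)

include hnb h1 in
theorem nx_step {R H j : ℕ} {z z' β : V} (hg : Good Γ nb f R H z) (hg' : Good Γ nb f R H z')
    (hz' : z' ∈ ball nb 1 z) (hz : z ∈ ball nb 1 z') (hj : j + 2 ≤ R)
    (hβ : β ∈ Cm nb f H j z) (hβ' : β ∈ Cm nb f H j z') :
    nx Γ nb f R H z β = nx Γ nb f R H z' β ∧ nx Γ nb f R H z β ∈ Cm nb f H (j + 1) z ∧
      nx Γ nb f R H z β ∈ Cm nb f H (j + 1) z' := by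
  have e : Fs Γ nb f R H z β = Fs Γ nb f R H z' β :=
    Set.Subset.antisymm (Fs_eq hnb h1 hg hz' hz hj hβ) (Fs_eq hnb h1 hg' hz hz' hj hβ')
  refine ⟨by unfold nx; rw [e], ?_, ?_⟩
  · rcases (Fs Γ nb f R H z β).eq_empty_or_nonempty with h | h
    · have : nx Γ nb f R H z β = β := by unfold nx; rw [h, nxt_empty]
      rw [this]; exact Cm_mono (by omega) hβ
    · have := (nxt_spec (Fs_finite R H z β) h β).1
      exact claimB hnb h1 hg (by omega) hβ this.2.2 this.2.1
  · rcases (Fs Γ nb f R H z β).eq_empty_or_nonempty with h | h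
    · have : nx Γ nb f R H z β = β := by unfold nx; rw [h, nxt_empty]
      rw [this]; exact Cm_mono (by omega) hβ'
    · have := (nxt_spec (Fs_finite R H z β) h β).1
      have h' : nxt (Fs Γ nb f R H z β) β ∈ Fs Γ nb f R H z' β := by rw [← e]; exact this
      exact claimB hnb h1 hg' (by omega) hβ' h'.2.2 h'.2.1

include hnb h1 in
theorem nx_iter {R H j : ℕ} {z z' β : V} (hg : Good Γ nb f R H z) (hg' : Good Γ nb f R H z')
    (hz' : z' ∈ ball nb 1 z) (hz : z ∈ ball nb 1 z')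
    (hβ : β ∈ Cm nb f H j z) (hβ' : β ∈ Cm nb f H j z') (i : ℕ) (hi : j + i + 1 ≤ R) :
    (nx Γ nb f R H z)^[i] β = (nx Γ nb f R H z')^[i] β ∧
      (nx Γ nb f R H z)^[i] β ∈ Cm nb f H (j + i) z ∧
      (nx Γ nb f R H z)^[i] β ∈ Cm nb f H (j + i) z' := by
  induction i with
  | zero => exact ⟨rfl, hβ, hβ'⟩
  | succ i ih =>
    obtain ⟨e, m1, m2⟩ := ih (by omega)
    have := nx_step hnb h1 hg hg' hz' hz (by omega) m1 m2
    rw [Function.iterate_succ_apply', Function.iterate_succ_apply', ← e]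
    exact this

include hnb h1 h2 h3 in
/-- Claim C: catching up -/
theorem catch_up {N R H : ℕ} (hcard : ∀ v, (nb v).card ≤ N) (hH : 1 ≤ H) (hR : N + 3 ≤ R)
    {z α' : V} (hg : Good Γ nb f R H z) (hα' : α' ∈ Cm nb f H 1 z)
    (hlt : α' < f^[2 * H] z) (hadj : Γ.Adj α' (f^[2 * H] z)) :
    ∃ t ≤ N, (nx Γ nb f R H z)^[t] α' = f^[2 * H] z := by
  by_contra hcon
  push Not at hcon
  set α := f^[2 * H] z with hα
  set g := nx Γ nb f R H z with hgdef
  have hzz : z ∈ ball nb 1 z := mem_ball_self nb 1 z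
  have hαR : α ∈ Cm nb f H R z := ⟨z, mem_ball_self nb R z, rfl⟩
  have main : ∀ i ≤ N, g^[i] α' < α ∧ Γ.Adj (g^[i] α') α ∧ g^[i] α' ∈ Cm nb f H (1 + i) z := by
    intro i
    induction i with
    | zero => intro _; exact ⟨hlt, hadj, hα'⟩
    | succ i ih =>
      intro hi
      obtain ⟨i1, i2, i3⟩ := ih (by omega)
      have hmem : α ∈ Fs Γ nb f R H z (g^[i] α') := ⟨i1, i2, hαR⟩
      have hs := nxt_spec (Fs_finite R H z (g^[i] α')) ⟨α, hmem⟩ (g^[i] α')
      have e : g^[i + 1] α' = nxt (Fs Γ nb f R H z (g^[i] α')) (g^[i] α') := by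
        rw [Function.iterate_succ_apply']; rfl
      rw [← e] at hs
      have hne := hcon (i + 1) hi
      have hc := claimA h1 h2 h3 hH hg (Cm_mono (by omega) i3) hs.1 hmem
      refine ⟨lt_of_le_of_ne (hs.2 α hmem) hne, hc.resolve_left hne, ?_⟩
      have := claimB hnb h1 hg (by omega) i3 hs.1.2.2 hs.1.2.1
      rw [← add_assoc]; exact this
  have mono : ∀ i < N, g^[i] α' < g^[i + 1] α' := by
    intro i hi
    obtain ⟨i1, i2, i3⟩ := main i hi.le
    have hmem : α ∈ Fs Γ nb f R H z (g^[i] α') := ⟨i1, i2, hαR⟩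
    have hs := nxt_spec (Fs_finite R H z (g^[i] α')) ⟨α, hmem⟩ (g^[i] α')
    have e : g^[i + 1] α' = nxt (Fs Γ nb f R H z (g^[i] α')) (g^[i] α') := by
      rw [Function.iterate_succ_apply']; rfl
    rw [← e] at hs
    exact hs.1.1
  have mono2 : ∀ i j, i < j → j ≤ N → g^[i] α' < g^[j] α' := by
    intro i j hij
    induction hij with
    | refl => intro h; exact mono i (by omega)
    | @step m hm ih => intro h; exact (ih (by omega)).trans (mono m (by omega))
  have hinj : Set.InjOn (fun i => g^[i] α') (Finset.range (N + 1) : Set ℕ) := by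
    intro i hi j hj hij
    simp only [Finset.coe_range, Set.mem_Iio] at hi hj
    rcases lt_trichotomy i j with h | h | h
    · exact absurd hij (mono2 i j h (by omega)).ne
    · exact h
    · exact absurd hij (mono2 j i h (by omega)).ne'
  have hsub : (Finset.range (N + 1)).image (fun i => g^[i] α') ⊆ nb α := by
    intro w hw
    rw [Finset.mem_image] at hw
    obtain ⟨i, hi, rfl⟩ := hw
    rw [Finset.mem_range] at hi
    exact (hnb _ _).2 (main i (by omega)).2.1.symm
  have := Finset.card_le_card hsub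
  rw [Finset.card_image_of_injOn hinj, Finset.card_range] at this
  have := hcard α
  omega

end chordal

end Pool.Agent.Helper32.Bridged
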