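import Mathlib

set_option autoImplicit false
open Filter

namespace Pool.Agent.Helper32.Bridged

section ell1
variable {V : Type}

open Classical in
/-- unit mass at a point -/
noncomputable def em (v : V) : lp (fun _ : V => ℝ) 1 := lp.single 1 v (1 : ℝ)

theorem em_norm (v : V) : ‖em v‖ = 1 := by
  classical
  unfold em
  rw [lp.norm_single (by norm_num)]; simp

open Classical in
theorem em_apply (v w : V) : (em v : V → ℝ) w = if w = v then 1 else 0 := by
  unfold em
  rw [lp.single_apply, Pi.single_apply]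

theorem lp_one_norm (g : lp (fun _ : V => ℝ) 1) : ‖g‖ = ∑' w, ‖(g : V → ℝ) w‖ := by
  rw [lp.norm_eq_tsum_rpow (by norm_num)]
  simp

theorem em_sum_apply {ι : Type} (K : Finset ι) (p : ι → V) (c : ℝ) (w : V) :
    ((c • ∑ k ∈ K, em (p k) : lp (fun _ : V => ℝ) 1) : V → ℝ) w =
      c * ∑ k ∈ K, (em (p k) : V → ℝ) w := by
  rw [lp.coeFn_smul, lp.coeFn_sum]
  simp [Finset.sum_apply]

theorem em_nonneg (v w : V) : 0 ≤ (em v : V → ℝ) w := by
  rw [em_apply]; split_ifs <;> norm_num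

theorem em_sum_nonneg {ι : Type} (K : Finset ι) (p : ι → V) {c : ℝ} (hc : 0 ≤ c) (w : V) :
    0 ≤ ((c • ∑ k ∈ K, em (p k) : lp (fun _ : V => ℝ) 1) : V → ℝ) w := by
  rw [em_sum_apply]
  exact mul_nonneg hc (Finset.sum_nonneg fun k _ => em_nonneg _ _)

theorem em_sum_supp {ι : Type} (K : Finset ι) (p : ι → V) (c : ℝ) (w : V)
    (h : ((c • ∑ k ∈ K, em (p k) : lp (fun _ : V => ℝ) 1) : V → ℝ) w ≠ 0) :
    ∃ k ∈ K, w = p k := by
  classical
  by_contra hcon
  push Not at hcon
  apply h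
  rw [em_sum_apply, Finset.sum_eq_zero, mul_zero]
  intro k hk
  rw [em_apply, if_neg (hcon k hk)]

theorem em_sum_norm {ι : Type} (K : Finset ι) (p : ι → V) {c : ℝ} (hc : 0 ≤ c) :
    ‖(c • ∑ k ∈ K, em (p k) : lp (fun _ : V => ℝ) 1)‖ = c * K.card := by
  classical
  rw [lp_one_norm]
  have h1 : ∀ w, ‖((c • ∑ k ∈ K, em (p k) : lp (fun _ : V => ℝ) 1) : V → ℝ) w‖ =
      ∑ k ∈ K, c * (if w = p k then (1 : ℝ) else 0) := by
    intro w
    rw [Real.norm_of_nonneg (em_sum_nonneg K p hc w), em_sum_apply, Finset.mul_sum]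
    refine Finset.sum_congr rfl fun k _ => ?_
    rw [em_apply]
  simp_rw [h1]
  rw [Summable.tsum_finsetSum]
  · have h2 : ∀ k ∈ K, ∑' w, c * (if w = p k then (1 : ℝ) else 0) = c := by
      intro k _
      rw [tsum_mul_left, tsum_ite_eq, mul_one]
    rw [Finset.sum_congr rfl h2]
    simp [mul_comm]
  · intro k _
    apply summable_of_ne_finset_zero (s := {p k})
    intro w hw
    rw [Finset.mem_singleton] at hw
    simp [hw]

theorem shift_norm (b : ℕ) (p : ℕ → V) (t : ℕ) :
    ‖(∑ j ∈ Finset.range b, em (p (j + t))) - ∑ j ∈ Finset.range b, em (p j)‖ ≤ 2 * t := by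
  induction t with
  | zero => simp
  | succ t ih =>
    have h1 : (∑ j ∈ Finset.range b, em (p (j + (t + 1)))) - ∑ j ∈ Finset.range b, em (p j) =
        (em (p (b + t)) - em (p (0 + t))) +
        ((∑ j ∈ Finset.range b, em (p (j + t))) - ∑ j ∈ Finset.range b, em (p j)) := by
      have h2 : (∑ j ∈ Finset.range b, (em (p (j + 1 + t)) - em (p (j + t)))) =
          em (p (b + t)) - em (p (0 + t)) :=
        Finset.sum_range_sub (fun j => em (p (j + t))) b
      rw [Finset.sum_sub_distrib] at h2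
      have h3 : ∀ j, j + (t + 1) = j + 1 + t := fun j => by omega
      simp_rw [h3]
      rw [← h2]; abel
    rw [h1]
    calc _ ≤ ‖em (p (b + t)) - em (p (0 + t))‖ + ‖(∑ j ∈ Finset.range b, em (p (j + t))) -
            ∑ j ∈ Finset.range b, em (p j)‖ := norm_add_le _ _
      _ ≤ 2 + 2 * t := by
          refine add_le_add ?_ ih
          calc _ ≤ ‖em (p (b + t))‖ + ‖em (p (0 + t))‖ := norm_sub_le _ _
            _ = 2 := by rw [em_norm, em_norm]; norm_num
      _ = 2 * ((t + 1 : ℕ) : ℝ) := by push_cast; ring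

theorem sum_em_norm_le {ι : Type} (K : Finset ι) (p : ι → V) :
    ‖∑ k ∈ K, em (p k)‖ ≤ K.card := by
  calc _ ≤ ∑ k ∈ K, ‖em (p k)‖ := norm_sum_le _ _
    _ = K.card := by simp [em_norm]

end ell1

end Pool.Agent.Helper32.Bridged
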