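import Pool.Agent.Helper32.Bridged.Defs
import Pool.Agent.Helper13.Bridged.PacketA

set_option autoImplicit false
open Filter

namespace Pool.Agent.Helper32.Bridged

open Pool.Agent.Helper13.Bridged (tri_quad)

section C45
variable {V : Type} {G : SimpleGraph V}

theorem dist_two (hG : G.Connected) {a b c : V} (hab : G.Adj a b) (hbc : G.Adj b c)
    (hac : ¬ G.Adj a c) (hne : a ≠ c) : G.dist a c = 2 := by
  have h1 : G.dist a b = 1 := SimpleGraph.dist_eq_one_iff_adj.2 hab
  have h2 : G.dist b c = 1 := SimpleGraph.dist_eq_one_iff_adj.2 hbc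
  have h3 : G.dist a c ≤ G.dist a b + G.dist b c := hG.dist_triangle
  have h4 : G.dist a c ≠ 0 := by
    intro h; exact hne ((hG.dist_eq_zero_iff).1 h)
  have h5 : G.dist a c ≠ 1 := by
    intro h; exact hac (SimpleGraph.dist_eq_one_iff_adj.1 h)
  omega

theorem noC4 (hG : G.Connected) (h : NoIso G) {x a b y : V} (hxa : G.Adj x a) (hab : G.Adj a b)
    (hby : G.Adj b y) (hyx : G.Adj y x) (hay : ¬ G.Adj a y) (hbx : ¬ G.Adj b x)
    (hne1 : a ≠ y) (hne2 : b ≠ x) : False := by
  apply h 4 le_rfl ![x, a, b, y]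
  have e1 : G.dist x a = 1 := SimpleGraph.dist_eq_one_iff_adj.2 hxa
  have e2 : G.dist a b = 1 := SimpleGraph.dist_eq_one_iff_adj.2 hab
  have e3 : G.dist b y = 1 := SimpleGraph.dist_eq_one_iff_adj.2 hby
  have e4 : G.dist y x = 1 := SimpleGraph.dist_eq_one_iff_adj.2 hyx
  have e5 : G.dist a y = 2 := dist_two hG hab hby hay hne1
  have e6 : G.dist b x = 2 := dist_two hG hby hyx hbx hne2
  have e1' : G.dist a x = 1 := by rw [SimpleGraph.dist_comm]; exact e1
  have e2' : G.dist b a = 1 := by rw [SimpleGraph.dist_comm]; exact e2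
  have e3' : G.dist y b = 1 := by rw [SimpleGraph.dist_comm]; exact e3
  have e4' : G.dist x y = 1 := by rw [SimpleGraph.dist_comm]; exact e4
  have e5' : G.dist y a = 2 := by rw [SimpleGraph.dist_comm]; exact e5
  have e6' : G.dist x b = 2 := by rw [SimpleGraph.dist_comm]; exact e6
  intro i j
  fin_cases i <;> fin_cases j <;> simp [*]

theorem noC5 (hG : G.Connected) (h : NoIso G) {x a z b y : V} (hxa : G.Adj x a) (haz : G.Adj a z)
    (hzb : G.Adj z b) (hby : G.Adj b y) (hyx : G.Adj y x)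
    (hxz : ¬ G.Adj x z) (hab : ¬ G.Adj a b) (hzy : ¬ G.Adj z y) (hbx : ¬ G.Adj b x)
    (hya : ¬ G.Adj y a) (n1 : x ≠ z) (n2 : a ≠ b) (n3 : z ≠ y) (n4 : b ≠ x) (n5 : y ≠ a) :
    False := by
  apply h 5 (by norm_num) ![x, a, z, b, y]
  have e1 : G.dist x a = 1 := SimpleGraph.dist_eq_one_iff_adj.2 hxa
  have e2 : G.dist a z = 1 := SimpleGraph.dist_eq_one_iff_adj.2 haz
  have e3 : G.dist z b = 1 := SimpleGraph.dist_eq_one_iff_adj.2 hzb
  have e4 : G.dist b y = 1 := SimpleGraph.dist_eq_one_iff_adj.2 hby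
  have e5 : G.dist y x = 1 := SimpleGraph.dist_eq_one_iff_adj.2 hyx
  have f1 : G.dist x z = 2 := dist_two hG hxa haz hxz n1
  have f2 : G.dist a b = 2 := dist_two hG haz hzb hab n2
  have f3 : G.dist z y = 2 := dist_two hG hzb hby hzy n3
  have f4 : G.dist b x = 2 := dist_two hG hby hyx hbx n4
  have f5 : G.dist y a = 2 := dist_two hG hyx hxa hya n5
  have e1' : G.dist a x = 1 := by rw [SimpleGraph.dist_comm]; exact e1
  have e2' : G.dist z a = 1 := by rw [SimpleGraph.dist_comm]; exact e2
  have e3' : G.dist b z = 1 := by rw [SimpleGraph.dist_comm]; exact e3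
  have e4' : G.dist y b = 1 := by rw [SimpleGraph.dist_comm]; exact e4
  have e5' : G.dist x y = 1 := by rw [SimpleGraph.dist_comm]; exact e5
  have f1' : G.dist z x = 2 := by rw [SimpleGraph.dist_comm]; exact f1
  have f2' : G.dist b a = 2 := by rw [SimpleGraph.dist_comm]; exact f2
  have f3' : G.dist y z = 2 := by rw [SimpleGraph.dist_comm]; exact f3
  have f4' : G.dist x b = 2 := by rw [SimpleGraph.dist_comm]; exact f4
  have f5' : G.dist a y = 2 := by rw [SimpleGraph.dist_comm]; exact f5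
  intro i j
  fin_cases i <;> fin_cases j <;> simp [*]

end C45

section father
variable {V : Type} (G : SimpleGraph V) (v0 : V)

/-- neighbours one level down -/
def Par (x : V) : Set V := {p | G.Adj x p ∧ G.dist v0 p + 1 = G.dist v0 x}

open Classical in
/-- the `r`-least parent -/
noncomputable def fa (r : V → V → Prop) (x : V) : V :=
  if h : ∃ p ∈ Par G v0 x, ∀ q ∈ Par G v0 x, q ≠ p → r p q then h.choose else x

/-- the orders of breadth first search -/
noncomputable def bfs : ℕ → V → V → Prop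
  | 0 => WellOrderingRel
  | k + 1 => fun x y => Prod.Lex (bfs k) WellOrderingRel (fa G v0 (bfs k) x, x)
      (fa G v0 (bfs k) y, y)

theorem bfs_wo (k : ℕ) : IsWellOrder V (bfs G v0 k) := by
  induction k with
  | zero => exact inferInstanceAs (IsWellOrder V WellOrderingRel)
  | succ k ih =>
    have := ih
    have hinj : Function.Injective (fun x : V => (fa G v0 (bfs G v0 k) x, x)) := by
      intro x y h; simpa using congrArg Prod.snd h
    let e : (fun x y : V => Prod.Lex (bfs G v0 k) WellOrderingRel (fa G v0 (bfs G v0 k) x, x)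
      (fa G v0 (bfs G v0 k) y, y)) ↪r Prod.Lex (bfs G v0 k) (WellOrderingRel (α := V)) :=
      ⟨⟨_, hinj⟩, Iff.rfl⟩
    exact e.isWellOrder


variable {G v0}

theorem lev_adj (hG : G.Connected) {x y : V} (h : G.Adj x y) :
    G.dist v0 x ≤ G.dist v0 y + 1 ∧ G.dist v0 y ≤ G.dist v0 x + 1 := by
  have h1 : G.dist x y = 1 := SimpleGraph.dist_eq_one_iff_adj.2 h
  have h2 : G.dist y x = 1 := by rw [SimpleGraph.dist_comm]; exact h1
  have h3 : G.dist v0 x ≤ G.dist v0 y + G.dist y x := hG.dist_triangle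
  have h4 : G.dist v0 y ≤ G.dist v0 x + G.dist x y := hG.dist_triangle
  omega

theorem Par_nonempty (hG : G.Connected) {x : V} {k : ℕ} (hx : G.dist v0 x = k + 1) :
    (Par G v0 x).Nonempty := by
  obtain ⟨p, hp⟩ := hG.exists_walk_length_eq_dist x v0
  cases p with
  | nil => simp at hx
  | @cons _ w _ hadj q =>
    refine ⟨w, hadj, ?_⟩
    have h1 : G.dist w v0 ≤ q.length := SimpleGraph.dist_le q
    rw [SimpleGraph.Walk.length_cons, SimpleGraph.dist_comm, hx] at hp
    rw [SimpleGraph.dist_comm] at h1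
    have := (lev_adj (v0 := v0) hG hadj)
    omega

theorem Par_clique (hG : G.Connected) (hI : NoIso G) {x p q : V} (hp : p ∈ Par G v0 x)
    (hq : q ∈ Par G v0 x) : p = q ∨ G.Adj p q := by
  obtain ⟨m, hm⟩ : ∃ m, G.dist v0 p = m := ⟨_, rfl⟩
  have h1 := hp.2
  have h2 := hq.2
  exact (tri_quad hG hI m).2 v0 x p q (by omega) hp.1 hq.1 hm (by omega)

theorem Par_meet (hG : G.Connected) (hI : NoIso G) {x y : V} {k : ℕ} (hx : G.dist v0 x = k + 1)
    (hy : G.dist v0 y = k + 1) (hxy : G.Adj x y) : ∃ c, c ∈ Par G v0 x ∧ c ∈ Par G v0 y := by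
  obtain ⟨r, h1, h2, h3⟩ := (tri_quad hG hI k).1 v0 x y hx hy hxy
  exact ⟨r, ⟨h1, by omega⟩, ⟨h2, by omega⟩⟩

theorem fa_spec (r : V → V → Prop) [hr : IsWellOrder V r] {x : V} (hx : (Par G v0 x).Nonempty) :
    fa G v0 r x ∈ Par G v0 x ∧ ∀ q ∈ Par G v0 x, q ≠ fa G v0 r x → r (fa G v0 r x) q := by
  have h : ∃ p ∈ Par G v0 x, ∀ q ∈ Par G v0 x, q ≠ p → r p q := by
    have hwf : WellFounded r := hr.toIsWellFounded.wf
    refine ⟨hwf.min _ hx, hwf.min_mem _ hx, fun q hq hne => ?_⟩
    have h1 := hwf.not_lt_min _ hq (x := q)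
    rcases trichotomous_of r (hwf.min _ hx) q with h | h | h
    · exact h
    · exact absurd h.symm hne
    · exact absurd h h1
  have e : fa G v0 r x = h.choose := by unfold fa; rw [dif_pos h]
  rw [e]
  exact h.choose_spec

/-- the key lemma -/
theorem key (hG : G.Connected) (hI : NoIso G) (k : ℕ) : ∀ x y : V, G.dist v0 x = k + 1 →
    G.dist v0 y = k + 1 → G.Adj x y → bfs G v0 (k + 1) y x →
    G.Adj y (fa G v0 (bfs G v0 k) x) := by
  induction k with
  | zero =>
    intro x y hx hy hxy _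
    have := bfs_wo G v0 0
    have h1 := (fa_spec (bfs G v0 0) (Par_nonempty hG hx)).1
    have h2 : G.dist v0 (fa G v0 (bfs G v0 0) x) = 0 := by have := h1.2; omega
    have h3 : v0 = fa G v0 (bfs G v0 0) x := (hG.dist_eq_zero_iff).1 h2
    rw [← h3]
    exact (SimpleGraph.dist_eq_one_iff_adj.1 (by simpa using hy)).symm
  | succ k ih =>
    intro x y hx hy hxy hlt
    have w1 := bfs_wo G v0 (k + 1)
    have w0 := bfs_wo G v0 k
    obtain ⟨hfx, hfxm⟩ := fa_spec (bfs G v0 (k + 1)) (Par_nonempty hG hx)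
    obtain ⟨hfy, hfym⟩ := fa_spec (bfs G v0 (k + 1)) (Par_nonempty hG hy)
    set a := fa G v0 (bfs G v0 (k + 1)) x with ha
    set b := fa G v0 (bfs G v0 (k + 1)) y with hb
    have hlex : Prod.Lex (bfs G v0 (k + 1)) WellOrderingRel (b, y) (a, x) := hlt
    rw [Prod.lex_def] at hlex
    rcases hlex with hlt' | ⟨heq, _⟩
    swap
    · simp only at heq
      rw [← heq]; exact hfy.1
    simp only at hlt'
    by_contra hna
    have haPy : a ∉ Par G v0 y := fun h => hna h.1
    have hbPx : b ∉ Par G v0 x := by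
      intro h
      have hne : b ≠ a := by
        rintro e; rw [e] at hlt'; exact irrefl_of (bfs G v0 (k + 1)) a hlt'
      exact asymm_of (bfs G v0 (k + 1)) hlt' (hfxm b h hne)
    obtain ⟨c, hcx, hcy⟩ := Par_meet hG hI hx hy hxy
    have hca : c ≠ a := by rintro rfl; exact haPy hcy
    have hcb : c ≠ b := by rintro rfl; exact hbPx hcx
    have hac : bfs G v0 (k + 1) a c := hfxm c hcx hca
    have hbc : bfs G v0 (k + 1) b c := hfym c hcy hcb
    have la : G.dist v0 a = k + 1 := by have := hfx.2; omega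
    have lb : G.dist v0 b = k + 1 := by have := hfy.2; omega
    have lc : G.dist v0 c = k + 1 := by have := hcx.2; omega
    have aca : G.Adj c a := by
      rcases Par_clique hG hI hcx hfx with h | h
      · exact absurd h hca
      · exact h
    have acb : G.Adj c b := by
      rcases Par_clique hG hI hcy hfy with h | h
      · exact absurd h hcb
      · exact h
    have hab : a ≠ b := by rintro e; exact haPy (e ▸ hfy)
    have nab : ¬ G.Adj a b := by
      intro h
      refine noC4 hG hI hfx.1 h hfy.1.symm hxy.symm ?_ ?_ ?_ ?_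
      · intro h'; exact haPy ⟨h'.symm, by omega⟩
      · intro h'; exact hbPx ⟨h'.symm, by omega⟩
      · rintro e; rw [e] at la; omega
      · rintro e; rw [e] at lb; omega
    have z1 := ih c a lc la aca hac
    have z2 := ih c b lc lb acb hbc
    have z3 := (fa_spec (bfs G v0 k) (Par_nonempty hG lc)).1
    set z := fa G v0 (bfs G v0 k) c with hz
    have lz : G.dist v0 z = k := by have := z3.2; omega
    have far : ∀ w : V, G.dist v0 w = k + 1 + 1 → ¬ G.Adj w z := by
      intro w hw h
      have := lev_adj (v0 := v0) hG h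
      omega
    refine noC5 hG hI hfx.1 z1 z2.symm hfy.1.symm hxy.symm (far x hx) nab
      (fun h => far y hy h.symm) ?_ ?_ ?_ hab ?_ ?_ ?_
    · intro h'; exact hbPx ⟨h'.symm, by omega⟩
    · intro h'; exact haPy ⟨h', by omega⟩
    · rintro e; rw [← e] at lz; omega
    · rintro e; rw [e] at lz; omega
    · rintro e; rw [e] at lb; omega
    · rintro e; rw [← e] at la; omega

end father

end Pool.Agent.Helper32.Bridged
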