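import Pool.Agent.Helper32.Bridged.Main

/-!
# Property A for uniformly locally finite systolic complexes

Question 2 of `MP_e4602c_al`.  The 1-skeleta of systolic complexes are exactly the bridged graphs,
that is the connected graphs without isometric cycles of length at least 4; this is the form in
which the frozen statement of Question 1 treats them, and it is the form used here.
-/

set_option autoImplicit false

namespace Pool.Agent.Helper32.Bridged.GraphForm

/-- `G` has no isometric cycle of length at least 4. -/
def NoIsometricCycle {V : Type} (G : SimpleGraph V) : Prop :=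
  ∀ n : ℕ, 4 ≤ n → ∀ c : Fin n → V,
    ¬ ∀ i j : Fin n,
      G.dist (c i) (c j) =
        min ((i : ℕ) - (j : ℕ) + ((j : ℕ) - (i : ℕ)))
            (n - ((i : ℕ) - (j : ℕ) + ((j : ℕ) - (i : ℕ))))

/-- Uniform local finiteness of the clique complex of `G`: every vertex lies in at most `N`
finite cliques. -/
def UniformlyLocallyFinite {V : Type} (G : SimpleGraph V) : Prop :=
  ∃ N : ℕ, ∀ v : V, ∀ S : Finset (Finset V),
    (∀ s ∈ S, v ∈ s ∧ G.IsClique (s : Set V)) → S.card ≤ N

/-- Property A of Yu for a set `V` with the distance function `d`, as stated in the problem. -/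
def PropertyA {V : Type} (d : V → V → ℝ) : Prop :=
  ∀ R ε : ℝ, 0 < R → 0 < ε → ∃ S : ℝ, 0 < S ∧ ∃ ξ : V → lp (fun _ : V => ℝ) 1,
    (∀ y, ‖ξ y‖ = 1) ∧
    (∀ y w, (ξ y : V → ℝ) w ≠ 0 → d y w ≤ S) ∧
    (∀ y z, d y z ≤ R → ‖ξ y - ξ z‖ ≤ ε)

/-- Every connected graph without isometric cycles of length at least 4 (the 1-skeleton of a
systolic complex) in which each vertex lies in at most `N` finite cliques has Property A with its
path metric. -/
theorem result (V : Type) (G : SimpleGraph V) (hG : G.Connected)
    (hN : UniformlyLocallyFinite G) (hI : NoIsometricCycle G) :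
    PropertyA (fun x y : V => (G.dist x y : ℝ)) := by
  intro R ε hR hε
  obtain ⟨N, hN⟩ := hN
  have hR1 : 0 < R + 1 := by linarith
  obtain ⟨S, ξ, h0, h1, h2, h3⟩ := Pool.Agent.Helper32.Bridged.reiter_bridged G hG hI N
    (Pool.Agent.Helper32.Bridged.nb_of_cliques G N hN) (ε / (R + 1)) (by positivity)
  refine ⟨S + 1, by positivity, ξ, h1, ?_, ?_⟩
  · intro y w hw
    have : (G.dist y w : ℝ) ≤ S := by exact_mod_cast h2 y w hw
    linarith
  · intro y z hyz
    have hwalk : ∀ {a b : V} (p : G.Walk a b), ‖ξ a - ξ b‖ ≤ p.length * (ε / (R + 1)) := by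
      intro a b p
      induction p with
      | nil => simp
      | @cons a c b hac q ih =>
        have e : ξ a - ξ b = (ξ a - ξ c) + (ξ c - ξ b) := by abel
        rw [e, SimpleGraph.Walk.length_cons]
        refine (norm_add_le _ _).trans ?_
        have := h3 a c hac
        push_cast
        linarith
    obtain ⟨p, hp⟩ := hG.exists_walk_length_eq_dist y z
    have h5 := hwalk p
    rw [hp] at h5
    refine h5.trans ?_
    calc (G.dist y z : ℝ) * (ε / (R + 1)) ≤ R * (ε / (R + 1)) :=
          mul_le_mul_of_nonneg_right hyz (by positivity)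
      _ ≤ (R + 1) * (ε / (R + 1)) := mul_le_mul_of_nonneg_right (by linarith) (by positivity)
      _ = ε := by field_simp

end Pool.Agent.Helper32.Bridged.GraphForm
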