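import Pool.Agent.Helper32.Bridged.Father

set_option autoImplicit false
open Filter

namespace Pool.Agent.Helper32.Bridged

section level
variable {V : Type} (G : SimpleGraph V) (v0 : V)

/-- the graph of edges inside the levels -/
def lvl : SimpleGraph V where
  Adj x y := G.Adj x y ∧ G.dist v0 x = G.dist v0 y
  symm := ⟨fun _ _ h => ⟨h.1.symm, h.2.symm⟩⟩
  loopless := ⟨fun _ h => h.1.ne rfl⟩

/-- the father map -/
noncomputable def fath (x : V) : V := fa G v0 (bfs G v0 (G.dist v0 x - 1)) x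

/-- the global order -/
def ord (x y : V) : Prop :=
  G.dist v0 x < G.dist v0 y ∨ (G.dist v0 x = G.dist v0 y ∧ bfs G v0 (G.dist v0 x) x y)

theorem ord_sto : IsStrictTotalOrder V (ord G v0) := by
  have ir : ∀ a, ¬ ord G v0 a a := by
    rintro a (h | ⟨_, h⟩)
    · exact lt_irrefl _ h
    · have := bfs_wo G v0 (G.dist v0 a)
      exact irrefl_of _ a h
  have tr : ∀ a b c, ord G v0 a b → ord G v0 b c → ord G v0 a c := by
    rintro a b c (h | ⟨h, h'⟩) (k | ⟨k, k'⟩)
    · left; omega
    · left; omega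
    · left; omega
    · right
      refine ⟨by omega, ?_⟩
      rw [← h] at k'
      have := bfs_wo G v0 (G.dist v0 a)
      exact trans_of _ h' k'
  have tri : ∀ a b, ¬ ord G v0 a b → ¬ ord G v0 b a → a = b := by
    intro a b h k
    unfold ord at h k
    push Not at h k
    have e : G.dist v0 a = G.dist v0 b := by omega
    have h2 := h.2 e
    have k2 := k.2 e.symm
    rw [← e] at k2
    have := bfs_wo G v0 (G.dist v0 a)
    rcases trichotomous_of (bfs G v0 (G.dist v0 a)) a b with h | h | h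
    · exact absurd h h2
    · exact h
    · exact absurd h k2
  exact { irrefl := ir, trans := tr, trichotomous := tri }

variable {G v0}

theorem fath_self : fath G v0 v0 = v0 := by
  unfold fath fa
  rw [dif_neg]
  rintro ⟨p, ⟨_, hp⟩, _⟩
  simp at hp

theorem fath_par (hG : G.Connected) {x : V} {k : ℕ} (hx : G.dist v0 x = k + 1) :
    fath G v0 x ∈ Par G v0 x := by
  unfold fath
  have := bfs_wo G v0 (G.dist v0 x - 1)
  exact (fa_spec _ (Par_nonempty hG hx)).1

theorem fath_lev (hG : G.Connected) (x : V) :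
    G.dist v0 (fath G v0 x) = G.dist v0 x - 1 := by
  rcases Nat.eq_zero_or_eq_succ_pred (G.dist v0 x) with h | h
  · have : v0 = x := (hG.dist_eq_zero_iff).1 h
    rw [← this, fath_self]; simp
  · have := (fath_par hG h).2
    omega

theorem fath_dist (hG : G.Connected) (x : V) : G.dist x (fath G v0 x) ≤ 1 := by
  rcases Nat.eq_zero_or_eq_succ_pred (G.dist v0 x) with h | h
  · have : v0 = x := (hG.dist_eq_zero_iff).1 h
    rw [← this, fath_self]; simp
  · have := (fath_par hG h).1
    rw [SimpleGraph.dist_eq_one_iff_adj.2 this]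

/-- key lemma in terms of the global order -/
theorem key' (hG : G.Connected) (hI : NoIso G) {x y : V} (h : (lvl G v0).Adj x y)
    (ho : ord G v0 y x) : fath G v0 x ∈ Par G v0 y ∧ fath G v0 y ∈ Par G v0 y ∧
      fath G v0 x ∈ Par G v0 x := by
  obtain ⟨hadj, hl⟩ := h
  rcases Nat.eq_zero_or_eq_succ_pred (G.dist v0 x) with h0 | h0
  · exfalso
    have h1 : v0 = x := (hG.dist_eq_zero_iff).1 h0
    have h2 : v0 = y := (hG.dist_eq_zero_iff).1 (hl ▸ h0)
    exact hadj.ne (h1.symm.trans h2)
  · obtain ⟨k, hk⟩ : ∃ k, G.dist v0 x = k + 1 := ⟨_, h0⟩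
    have hy : G.dist v0 y = k + 1 := by omega
    have p1 := fath_par hG hk
    have p2 := fath_par hG hy
    refine ⟨⟨?_, ?_⟩, p2, p1⟩
    · have hb : bfs G v0 (k + 1) y x := by
        rcases ho with ho | ho
        · omega
        · have := ho.2; rwa [hy] at this
      have := key hG hI k x y hk hy hadj hb
      have e : fath G v0 x = fa G v0 (bfs G v0 k) x := by
        unfold fath; rw [hk]; rfl
      rw [e]; exact this
    · have := p1.2; omega

theorem Par_lvl (hG : G.Connected) (hI : NoIso G) {x p q : V} (hp : p ∈ Par G v0 x)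
    (hq : q ∈ Par G v0 x) : p = q ∨ (lvl G v0).Adj p q := by
  rcases Par_clique hG hI hp hq with h | h
  · exact Or.inl h
  · right
    refine ⟨h, ?_⟩
    have := hp.2
    have := hq.2
    omega

theorem fath_h1 (hG : G.Connected) (hI : NoIso G) (x y : V) (h : (lvl G v0).Adj x y) :
    fath G v0 x = fath G v0 y ∨ (lvl G v0).Adj (fath G v0 x) (fath G v0 y) := by
  have hs := ord_sto G v0
  rcases trichotomous_of (ord G v0) x y with h' | h' | h'
  · obtain ⟨a1, a2, a3⟩ := key' hG hI h.symm h'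
    exact Par_lvl hG hI a2 a1
  · exact absurd h' h.ne
  · obtain ⟨a1, a2, a3⟩ := key' hG hI h h'
    exact Par_lvl hG hI a1 a2

theorem fath_h2 (hG : G.Connected) (hI : NoIso G) (x y : V) (h : (lvl G v0).Adj x y)
    (ho : ord G v0 x y) : fath G v0 x = fath G v0 y ∨ ord G v0 (fath G v0 x) (fath G v0 y) := by
  rcases Nat.eq_zero_or_eq_succ_pred (G.dist v0 x) with h0 | h0
  · exfalso
    have h1 : v0 = x := (hG.dist_eq_zero_iff).1 h0
    have h2 : v0 = y := (hG.dist_eq_zero_iff).1 (h.2 ▸ h0)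
    exact h.1.ne (h1.symm.trans h2)
  · obtain ⟨k, hk⟩ : ∃ k, G.dist v0 x = k + 1 := ⟨_, h0⟩
    have hy : G.dist v0 y = k + 1 := by have := h.2; omega
    have hb : bfs G v0 (k + 1) x y := by
      rcases ho with ho | ho
      · omega
      · have := ho.2; rwa [hk] at this
    have ex : fath G v0 x = fa G v0 (bfs G v0 k) x := by
      unfold fath; rw [hk]; rfl
    have ey : fath G v0 y = fa G v0 (bfs G v0 k) y := by
      unfold fath; rw [hy]; rfl
    have hlex : Prod.Lex (bfs G v0 k) WellOrderingRel (fa G v0 (bfs G v0 k) x, x)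
      (fa G v0 (bfs G v0 k) y, y) := hb
    rw [Prod.lex_def] at hlex
    have lx := fath_lev (v0 := v0) hG x
    have ly := fath_lev (v0 := v0) hG y
    rcases hlex with hlt | ⟨heq, _⟩
    · right; right
      refine ⟨by omega, ?_⟩
      rw [lx, hk, Nat.add_sub_cancel, ex, ey]
      exact hlt
    · left; rw [ex, ey]; exact heq

theorem fath_h3 (hG : G.Connected) (hI : NoIso G) (y u v : V) (hu : (lvl G v0).Adj y u)
    (hv : (lvl G v0).Adj y v) (ou : ord G v0 y u) (ov : ord G v0 y v) :
    fath G v0 u = fath G v0 v ∨ (lvl G v0).Adj (fath G v0 u) (fath G v0 v) := by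
  obtain ⟨a1, _, _⟩ := key' hG hI hu.symm ou
  obtain ⟨b1, _, _⟩ := key' hG hI hv.symm ov
  exact Par_lvl hG hI a1 b1

theorem fath_h4 (hG : G.Connected) (hI : NoIso G) (x y : V) (h : G.Adj x y)
    (hl : G.dist v0 y + 1 = G.dist v0 x) :
    fath G v0 x = y ∨ (lvl G v0).Adj (fath G v0 x) y := by
  obtain ⟨k, hk⟩ : ∃ k, G.dist v0 x = k + 1 := ⟨_, hl.symm⟩
  exact Par_lvl hG hI (fath_par hG hk) ⟨h, hl⟩

end level

end Pool.Agent.Helper32.Bridged
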