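import Pool.Agent.Helper32.Bridged.Chordal
import Pool.Agent.Helper32.Bridged.EllOne
import Pool.Agent.Helper8.Bridged.PacketC

set_option autoImplicit false
open Filter

namespace Pool.Agent.Helper32.Bridged

open Pool.Agent.Helper8.Bridged (bad_count)

section reiter
variable {V : Type} [LinearOrder V] {G Γ : SimpleGraph V} {nb : V → Finset V} {f : V → V}

/-- the point with index `(s, j)` at scale `H` -/
noncomputable def pt (Γ : SimpleGraph V) (nb : V → Finset V) (f : V → V) (R H : ℕ) (z : V)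
    (j : ℕ) : V := (nx Γ nb f R H z)^[j] (f^[2 * H] z)

variable (hnb : ∀ v w, w ∈ nb v ↔ Γ.Adj v w)
  (h1 : ∀ x y, Γ.Adj x y → f x = f y ∨ Γ.Adj (f x) (f y))
  (h2 : ∀ x y, Γ.Adj x y → x < y → f x ≤ f y)
  (h3 : ∀ y u v, Γ.Adj y u → Γ.Adj y v → y < u → y < v → f u = f v ∨ Γ.Adj (f u) (f v))

include hnb in
theorem mem_ball_one {z z' : V} (h : Γ.Adj z z') : z' ∈ ball nb 1 z :=
  ball_succ_of_nb nb (mem_ball_self nb 0 z) ((hnb _ _).2 h)

include hnb h1 h2 h3 in
/-- good positions, ordered case -/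
theorem good_diff_aux {N R H b : ℕ} (hcard : ∀ v, (nb v).card ≤ N) (hH : 1 ≤ H)
    (hR : N + b + 3 ≤ R) {z z' : V} (hadj : Γ.Adj z z') (hg : Good Γ nb f R H z)
    (hg' : Good Γ nb f R H z') (hlt : f^[2 * H] z' < f^[2 * H] z) :
    ‖(∑ j ∈ Finset.range b, em (pt Γ nb f R H z j)) -
      ∑ j ∈ Finset.range b, em (pt Γ nb f R H z' j)‖ ≤ 2 * N := by
  have m1 : z' ∈ ball nb 1 z := mem_ball_one hnb hadj
  have m2 : z ∈ ball nb 1 z' := mem_ball_one hnb hadj.symm
  have ca' : f^[2 * H] z' ∈ Cm nb f H 1 z := ⟨z', m1, rfl⟩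
  have ca'' : f^[2 * H] z' ∈ Cm nb f H 1 z' := ⟨z', mem_ball_self nb 1 z', rfl⟩
  have hα : Γ.Adj (f^[2 * H] z') (f^[2 * H] z) := by
    rcases iter_adj h1 (2 * H) (Or.inr hadj.symm) with e | e
    · exact absurd e hlt.ne
    · exact e
  obtain ⟨t, ht, e⟩ := catch_up hnb h1 h2 h3 hcard hH (by omega) hg ca' hlt hα
  have e1 : ∀ j ∈ Finset.range b, pt Γ nb f R H z' j =
      (nx Γ nb f R H z)^[j] (f^[2 * H] z') := by
    intro j hj
    rw [Finset.mem_range] at hj
    exact (nx_iter hnb h1 hg hg' m1 m2 ca' ca'' j (by omega)).1.symm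
  have e2 : ∀ j ∈ Finset.range b, pt Γ nb f R H z j =
      (nx Γ nb f R H z)^[j + t] (f^[2 * H] z') := by
    intro j hj
    unfold pt
    rw [Function.iterate_add_apply, e]
  have f1 : (∑ j ∈ Finset.range b, em (pt Γ nb f R H z' j)) =
      ∑ j ∈ Finset.range b, em ((nx Γ nb f R H z)^[j] (f^[2 * H] z')) :=
    Finset.sum_congr rfl (fun j hj => by rw [e1 j hj])
  have f2 : (∑ j ∈ Finset.range b, em (pt Γ nb f R H z j)) =
      ∑ j ∈ Finset.range b, em ((nx Γ nb f R H z)^[j + t] (f^[2 * H] z')) :=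
    Finset.sum_congr rfl (fun j hj => by rw [e2 j hj])
  rw [f1, f2]
  refine (shift_norm b (fun j => (nx Γ nb f R H z)^[j] (f^[2 * H] z')) t).trans ?_
  have : (t : ℝ) ≤ N := by exact_mod_cast ht
  linarith

include hnb h1 in
/-- good positions, equal case -/
theorem good_diff_eq {N R H b : ℕ}
    (hR : N + b + 3 ≤ R) {z z' : V} (hadj : Γ.Adj z z') (hg : Good Γ nb f R H z)
    (hg' : Good Γ nb f R H z') (heq : f^[2 * H] z' = f^[2 * H] z) :
    ‖(∑ j ∈ Finset.range b, em (pt Γ nb f R H z j)) -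
      ∑ j ∈ Finset.range b, em (pt Γ nb f R H z' j)‖ ≤ 2 * N := by
  have m1 : z' ∈ ball nb 1 z := mem_ball_one hnb hadj
  have m2 : z ∈ ball nb 1 z' := mem_ball_one hnb hadj.symm
  have ca' : f^[2 * H] z' ∈ Cm nb f H 1 z := ⟨z', m1, rfl⟩
  have ca'' : f^[2 * H] z' ∈ Cm nb f H 1 z' := ⟨z', mem_ball_self nb 1 z', rfl⟩
  have e1 : ∀ j ∈ Finset.range b, pt Γ nb f R H z' j = pt Γ nb f R H z j := by
    intro j hj
    rw [Finset.mem_range] at hj
    have := (nx_iter hnb h1 hg hg' m1 m2 ca' ca'' j (by omega)).1.symm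
    unfold pt
    rw [this, heq]
  have f1 : (∑ j ∈ Finset.range b, em (pt Γ nb f R H z' j)) =
      ∑ j ∈ Finset.range b, em (pt Γ nb f R H z j) :=
    Finset.sum_congr rfl (fun j hj => by rw [e1 j hj])
  rw [f1, sub_self, norm_zero]
  positivity

include hnb h1 h2 h3 in
/-- good positions -/
theorem good_diff {N R H b : ℕ} (hcard : ∀ v, (nb v).card ≤ N) (hH : 1 ≤ H)
    (hR : N + b + 3 ≤ R) {z z' : V} (hadj : Γ.Adj z z') (hg : Good Γ nb f R H z)
    (hg' : Good Γ nb f R H z') :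
    ‖(∑ j ∈ Finset.range b, em (pt Γ nb f R H z j)) -
      ∑ j ∈ Finset.range b, em (pt Γ nb f R H z' j)‖ ≤ 2 * N := by
  rcases lt_trichotomy (f^[2 * H] z') (f^[2 * H] z) with h | h | h
  · exact good_diff_aux hnb h1 h2 h3 hcard hH hR hadj hg hg' h
  · exact good_diff_eq hnb h1 hR hadj hg hg' h
  · rw [norm_sub_rev]
    exact good_diff_aux hnb h1 h2 h3 hcard hH hR hadj.symm hg' hg h

/-- the sum vector -/
noncomputable def vec (Γ : SimpleGraph V) (nb : V → Finset V) (f : V → V) (R b : ℕ) (i : ℕ)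
    (z : V) : lp (fun _ : V => ℝ) 1 := ∑ j ∈ Finset.range b, em (pt Γ nb f R (2 ^ i) z j)

theorem vec_norm_le (R b i : ℕ) (z : V) : ‖vec Γ nb f R b i z‖ ≤ b := by
  have := sum_em_norm_le (Finset.range b) (fun j => pt Γ nb f R (2 ^ i) z j)
  rw [Finset.card_range] at this
  exact this

/-- total vector -/
noncomputable def tot (Γ : SimpleGraph V) (nb : V → Finset V) (f : V → V) (R b Q L : ℕ)
    (x : V) : lp (fun _ : V => ℝ) 1 :=
  ∑ p ∈ Finset.range Q ×ˢ Finset.range L, vec Γ nb f R b p.1 (f^[p.2] x)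

open Classical in
/-- the bad positions -/
noncomputable def bad (Γ : SimpleGraph V) (nb : V → Finset V) (f : V → V) (R Q L : ℕ)
    (x : V) : Finset (ℕ × ℕ) :=
  (Finset.range Q ×ˢ Finset.range L).filter
        (fun p => ¬ Good Γ nb f R (2 ^ p.1) (f^[p.2] x))

include hnb h1 h2 h3 in
theorem tot_diff {N R b Q L : ℕ} (hcard : ∀ v, (nb v).card ≤ N)
    (hR : N + b + 3 ≤ R) {x y : V} (hadj : Γ.Adj x y) :
    ‖tot Γ nb f R b Q L x - tot Γ nb f R b Q L y‖ ≤
      2 * N * (Q * L) + 2 * b * ((bad Γ nb f R Q L x).card + (bad Γ nb f R Q L y).card) := by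
  classical
  unfold tot
  rw [← Finset.sum_sub_distrib]
  refine (norm_sum_le _ _).trans ?_
  have key : ∀ p ∈ Finset.range Q ×ˢ Finset.range L,
      ‖vec Γ nb f R b p.1 (f^[p.2] x) - vec Γ nb f R b p.1 (f^[p.2] y)‖ ≤
      2 * N + (2 * b * (if p ∈ bad Γ nb f R Q L x then 1 else 0) +
        2 * b * (if p ∈ bad Γ nb f R Q L y then 1 else 0)) := by
    intro p hp
    have triv : ‖vec Γ nb f R b p.1 (f^[p.2] x) - vec Γ nb f R b p.1 (f^[p.2] y)‖ ≤ 2 * b := by
      refine (norm_sub_le _ _).trans ?_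
      have := vec_norm_le (Γ := Γ) (nb := nb) (f := f) R b p.1 (f^[p.2] x)
      have := vec_norm_le (Γ := Γ) (nb := nb) (f := f) R b p.1 (f^[p.2] y)
      linarith
    have hN : (0 : ℝ) ≤ 2 * N := by positivity
    have hb : (0 : ℝ) ≤ 2 * b := by positivity
    by_cases bx : p ∈ bad Γ nb f R Q L x
    · rw [if_pos bx]
      have : (0 : ℝ) ≤ 2 * b * (if p ∈ bad Γ nb f R Q L y then 1 else 0) := by
        split_ifs <;> simp
      linarith
    by_cases bY : p ∈ bad Γ nb f R Q L y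
    · rw [if_pos bY, if_neg bx]
      linarith
    rw [if_neg bx, if_neg bY]
    have gx : Good Γ nb f R (2 ^ p.1) (f^[p.2] x) := by
      by_contra h
      exact bx (Finset.mem_filter.2 ⟨hp, h⟩)
    have gy : Good Γ nb f R (2 ^ p.1) (f^[p.2] y) := by
      by_contra h
      exact bY (Finset.mem_filter.2 ⟨hp, h⟩)
    simp only [mul_zero, add_zero]
    rcases iter_adj h1 p.2 (Or.inr hadj) with e | e
    · rw [e, sub_self, norm_zero]; exact hN
    · exact good_diff hnb h1 h2 h3 hcard Nat.one_le_two_pow hR e gx gy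
  refine (Finset.sum_le_sum key).trans ?_
  rw [Finset.sum_add_distrib, Finset.sum_add_distrib, 
    Finset.sum_const, Finset.card_product, Finset.card_range, Finset.card_range]
  have sub : ∀ x, bad Γ nb f R Q L x ⊆ Finset.range Q ×ˢ Finset.range L :=
    fun x => Finset.filter_subset _ _
  have cnt : ∀ x, ∑ p ∈ Finset.range Q ×ˢ Finset.range L,
      (if p ∈ bad Γ nb f R Q L x then (1 : ℝ) else 0) = (bad Γ nb f R Q L x).card := by
    intro x
    rw [Finset.sum_ite_mem, Finset.inter_eq_right.2 (sub x)]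
    simp
  rw [← Finset.mul_sum (f := fun p => if p ∈ bad Γ nb f R Q L x then (1 : ℝ) else 0),
    ← Finset.mul_sum (f := fun p => if p ∈ bad Γ nb f R Q L y then (1 : ℝ) else 0), cnt x, cnt y]
  simp only [nsmul_eq_mul, Nat.cast_mul]
  apply le_of_eq
  ring

theorem tot_father {R b Q L : ℕ} (x : V) :
    ‖tot Γ nb f R b Q L x - tot Γ nb f R b Q L (f x)‖ ≤ 2 * (Q * b) := by
  unfold tot
  rw [Finset.sum_product, Finset.sum_product, ← Finset.sum_sub_distrib]
  refine (norm_sum_le _ _).trans ?_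
  have key : ∀ i ∈ Finset.range Q, ‖(∑ s ∈ Finset.range L, vec Γ nb f R b i (f^[s] x)) -
      ∑ s ∈ Finset.range L, vec Γ nb f R b i (f^[s] (f x))‖ ≤ 2 * b := by
    intro i _
    have h1 : (∑ s ∈ Finset.range L, vec Γ nb f R b i (f^[s] (f x))) -
      (∑ s ∈ Finset.range L, vec Γ nb f R b i (f^[s] x)) =
        vec Γ nb f R b i (f^[L] x) - vec Γ nb f R b i (f^[0] x) := by
      rw [← Finset.sum_sub_distrib, ← Finset.sum_range_sub (fun s => vec Γ nb f R b i (f^[s] x))]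
      refine Finset.sum_congr rfl fun s _ => ?_
      rw [Function.iterate_succ_apply]
    rw [norm_sub_rev, h1]
    refine (norm_sub_le _ _).trans ?_
    have := vec_norm_le (Γ := Γ) (nb := nb) (f := f) R b i (f^[L] x)
    have := vec_norm_le (Γ := Γ) (nb := nb) (f := f) R b i (f^[0] x)
    linarith
  refine (Finset.sum_le_sum key).trans ?_
  simp only [Finset.sum_const, Finset.card_range, nsmul_eq_mul]
  apply le_of_eq; ring

theorem tot_eq (R b Q L : ℕ) (x : V) : tot Γ nb f R b Q L x =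
    ∑ k ∈ (Finset.range Q ×ˢ Finset.range L) ×ˢ Finset.range b,
      em (pt Γ nb f R (2 ^ k.1.1) (f^[k.1.2] x) k.2) := by
  unfold tot vec
  exact (Finset.sum_product (Finset.range Q ×ˢ Finset.range L) (Finset.range b)
    (fun k => em (pt Γ nb f R (2 ^ k.1.1) (f^[k.1.2] x) k.2))).symm

theorem nx_adj (R H : ℕ) (z β : V) : nx Γ nb f R H z β = β ∨ Γ.Adj β (nx Γ nb f R H z β) := by
  rcases (Fs Γ nb f R H z β).eq_empty_or_nonempty with h | h
  · left; unfold nx; rw [h, nxt_empty]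
  · right
    exact (nxt_spec (Fs_finite R H z β) h β).1.2.1

theorem pt_dist (hG : G.Connected) (hΓ : ∀ x y, Γ.Adj x y → G.Adj x y)
    (hf : ∀ x, G.dist x (f x) ≤ 1) (R H s : ℕ) (x : V) (j : ℕ) :
    G.dist x (pt Γ nb f R H (f^[s] x) j) ≤ s + 2 * H + j := by
  have hfi : ∀ (m : ℕ) (y : V), G.dist y (f^[m] y) ≤ m := by
    intro m y
    induction m with
    | zero => simp
    | succ m ih =>
      rw [Function.iterate_succ_apply']
      have := hG.dist_triangle (u := y) (v := f^[m] y) (w := f (f^[m] y))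
      have := hf (f^[m] y)
      omega
  have hn : ∀ (β : V), G.dist β ((nx Γ nb f R H (f^[s] x))^[j] β) ≤ j := by
    intro β
    induction j with
    | zero => simp
    | succ m ih =>
      rw [Function.iterate_succ_apply']
      have h1 := hG.dist_triangle (u := β) (v := (nx Γ nb f R H (f^[s] x))^[m] β)
        (w := nx Γ nb f R H (f^[s] x) ((nx Γ nb f R H (f^[s] x))^[m] β))
      have h2 : G.dist ((nx Γ nb f R H (f^[s] x))^[m] β)
          (nx Γ nb f R H (f^[s] x) ((nx Γ nb f R H (f^[s] x))^[m] β)) ≤ 1 := by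
        rcases nx_adj (Γ := Γ) (nb := nb) (f := f) R H (f^[s] x)
          ((nx Γ nb f R H (f^[s] x))^[m] β) with h | h
        · rw [h]; simp
        · rw [SimpleGraph.dist_eq_one_iff_adj.2 (hΓ _ _ h)]
      omega
  have t1 := hfi s x
  have t2 := hfi (2 * H) (f^[s] x)
  have t3 := hn (f^[2 * H] (f^[s] x))
  have u1 := hG.dist_triangle (u := x) (v := f^[s] x) (w := f^[2 * H] (f^[s] x))
  have u2 := hG.dist_triangle (u := x) (v := f^[2 * H] (f^[s] x))
    (w := (nx Γ nb f R H (f^[s] x))^[j] (f^[2 * H] (f^[s] x)))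
  unfold pt
  omega

include hnb h1 h2 h3 in
theorem reiter (N : ℕ) (hcard : ∀ v, (nb v).card ≤ N) (hG : G.Connected)
    (hΓ : ∀ x y, Γ.Adj x y → G.Adj x y) (hf : ∀ x, G.dist x (f x) ≤ 1)
    (h4 : ∀ x y, G.Adj x y → Γ.Adj x y ∨ (f x = y ∨ Γ.Adj (f x) y) ∨ (f y = x ∨ Γ.Adj (f y) x))
    (ε : ℝ) (hε : 0 < ε) :
    ∃ (S : ℕ) (ξ : V → lp (fun _ : V => ℝ) 1),
      (∀ x w, 0 ≤ (ξ x : V → ℝ) w) ∧ (∀ x, ‖ξ x‖ = 1) ∧
      (∀ x w, (ξ x : V → ℝ) w ≠ 0 → G.dist x w ≤ S) ∧
      (∀ x y, G.Adj x y → ‖ξ x - ξ y‖ ≤ ε) := by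
  obtain ⟨b, hb⟩ := exists_nat_gt (4 * N / ε)
  have hb0 : (0 : ℝ) < b := lt_of_le_of_lt (by positivity) hb
  have hb1 : 2 * N / (b : ℝ) ≤ ε / 2 := by
    rw [div_lt_iff₀ hε] at hb
    rw [div_le_iff₀ hb0]
    nlinarith
  obtain ⟨Q, L, hQ, hL, hδL, hcount⟩ := bad_count Γ nb f N hnb hcard h1 (N + b + 3) (ε / 12)
    (by positivity)
  set R := N + b + 3 with hR
  have hcount' : ∀ x, ((bad Γ nb f R Q L x).card : ℝ) ≤ ε / 12 * (Q * L) := hcount
  have hQ0 : (0 : ℝ) < Q := by exact_mod_cast hQ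
  have hL0 : (0 : ℝ) < L := by exact_mod_cast hL
  set c : ℝ := (Q * L * b)⁻¹ with hc
  have hc0 : 0 < c := by positivity
  have lvlcase : ∀ x y, Γ.Adj x y → ‖c • tot Γ nb f R b Q L x - c • tot Γ nb f R b Q L y‖ ≤
      ε / 2 + ε / 3 := by
    intro x y hxy
    rw [← smul_sub, norm_smul, Real.norm_of_nonneg hc0.le]
    have h5 := tot_diff (Q := Q) (L := L) hnb h1 h2 h3 hcard hR.ge hxy
    have h6 := hcount' x
    have h7 := hcount' y
    have h8 : ‖tot Γ nb f R b Q L x - tot Γ nb f R b Q L y‖ ≤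
        2 * N * (Q * L) + 2 * b * (ε / 12 * (Q * L) + ε / 12 * (Q * L)) := by
      refine h5.trans ?_
      have : (0 : ℝ) ≤ 2 * b := by positivity
      have := mul_le_mul_of_nonneg_left (add_le_add h6 h7) this
      linarith
    calc c * ‖tot Γ nb f R b Q L x - tot Γ nb f R b Q L y‖ ≤
        c * (2 * N * (Q * L) + 2 * b * (ε / 12 * (Q * L) + ε / 12 * (Q * L))) :=
          mul_le_mul_of_nonneg_left h8 hc0.le
      _ = 2 * N / b + ε / 3 := by
          rw [hc]; field_simp; ring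
      _ ≤ ε / 2 + ε / 3 := by linarith
  have facase : ∀ x, ‖c • tot Γ nb f R b Q L x - c • tot Γ nb f R b Q L (f x)‖ ≤ ε / 6 := by
    intro x
    rw [← smul_sub, norm_smul, Real.norm_of_nonneg hc0.le]
    calc c * ‖tot Γ nb f R b Q L x - tot Γ nb f R b Q L (f x)‖ ≤ c * (2 * (Q * b)) :=
          mul_le_mul_of_nonneg_left (tot_father x) hc0.le
      _ = 2 / L := by rw [hc]; field_simp
      _ ≤ ε / 6 := by
          rw [div_le_iff₀ hL0]; linarith
  have upcase : ∀ x y, (f x = y ∨ Γ.Adj (f x) y) →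
      ‖c • tot Γ nb f R b Q L x - c • tot Γ nb f R b Q L y‖ ≤ ε := by
    intro x y h
    rcases h with h | h
    · rw [← h]
      exact (facase x).trans (by linarith)
    · have e1 := facase x
      have e2 := lvlcase _ _ h
      have e3 : c • tot Γ nb f R b Q L x - c • tot Γ nb f R b Q L y =
        (c • tot Γ nb f R b Q L x - c • tot Γ nb f R b Q L (f x)) +
        (c • tot Γ nb f R b Q L (f x) - c • tot Γ nb f R b Q L y) := by abel
      rw [e3]
      refine (norm_add_le _ _).trans ?_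
      linarith
  refine ⟨L + 2 * 2 ^ Q + b, fun x => c • tot Γ nb f R b Q L x, ?_, ?_, ?_, ?_⟩
  · intro x w
    simp only [tot_eq]
    exact em_sum_nonneg _ (fun k : (ℕ × ℕ) × ℕ => pt Γ nb f R (2 ^ k.1.1) (f^[k.1.2] x) k.2)
      hc0.le w
  · intro x
    simp only [tot_eq]
    rw [em_sum_norm _ (fun k : (ℕ × ℕ) × ℕ => pt Γ nb f R (2 ^ k.1.1) (f^[k.1.2] x) k.2) hc0.le]
    rw [Finset.card_product, Finset.card_product, Finset.card_range, Finset.card_range,
      Finset.card_range, hc]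
    push_cast
    field_simp
  · intro x w hw
    simp only [tot_eq] at hw
    obtain ⟨k, hk, e⟩ := em_sum_supp _ (fun k : (ℕ × ℕ) × ℕ =>
      pt Γ nb f R (2 ^ k.1.1) (f^[k.1.2] x) k.2) c w hw
    simp only [Finset.mem_product, Finset.mem_range] at hk
    rw [e]
    refine (pt_dist hG hΓ hf R _ _ x _).trans ?_
    have : 2 ^ k.1.1 ≤ 2 ^ Q := Nat.pow_le_pow_right (by norm_num) hk.1.1.le
    omega
  · intro x y hxy
    rcases h4 x y hxy with h | h | h
    · exact (lvlcase x y h).trans (by linarith)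
    · exact upcase x y h
    · show ‖c • tot Γ nb f R b Q L x - c • tot Γ nb f R b Q L y‖ ≤ ε
      rw [norm_sub_rev]
      exact upcase y x h

end reiter

end Pool.Agent.Helper32.Bridged
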