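import Pool.Agent.Helper32.Bridged.Level
import Pool.Agent.Helper32.Bridged.Reiter

set_option autoImplicit false
open Filter

namespace Pool.Agent.Helper32.Bridged

section main
variable {V : Type}

theorem nb_of_cliques (G : SimpleGraph V) (N : ℕ)
    (hN : ∀ v : V, ∀ S : Finset (Finset V),
          (∀ s ∈ S, v ∈ s ∧ G.IsClique (s : Set V)) → S.card ≤ N) (v : V) (T : Finset V)
    (hT : ∀ w ∈ T, G.Adj v w) : T.card ≤ N := by
  classical
  have h := hN v (T.image (fun w => ({v, w} : Finset V))) ?_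
  · rw [Finset.card_image_of_injOn] at h
    · exact h
    · intro a ha b hb hab
      have h1 : a ∈ ({v, b} : Finset V) := by
        simp only at hab
        rw [← hab]; simp
      rw [Finset.mem_insert, Finset.mem_singleton] at h1
      rcases h1 with h1 | h1
      · exact absurd h1.symm (hT a ha).ne
      · exact h1
  · intro s hs
    rw [Finset.mem_image] at hs
    obtain ⟨w, hw, rfl⟩ := hs
    refine ⟨by simp, ?_⟩
    rw [Finset.coe_insert, Finset.coe_singleton, SimpleGraph.isClique_pair]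
    intro _
    exact hT w hw

theorem finite_nb (G : SimpleGraph V) (N : ℕ)
    (hN : ∀ v : V, ∀ T : Finset V, (∀ w ∈ T, G.Adj v w) → T.card ≤ N) :
    ∃ nb : V → Finset V, (∀ v w, w ∈ nb v ↔ G.Adj v w) ∧ ∀ v, (nb v).card ≤ N := by
  have fin : ∀ v, {w | G.Adj v w}.Finite := by
    intro v
    by_contra hinf
    obtain ⟨T, hT, hc⟩ := Set.Infinite.exists_subset_card_eq hinf (N + 1)
    have := hN v T (fun w hw => hT hw)
    omega
  refine ⟨fun v => (fin v).toFinset, fun v w => by simp, fun v => ?_⟩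
  exact hN v _ (fun w hw => by simpa using hw)

/-- Reiter functions for connected graphs of bounded degree without isometric cycles of length
at least four -/
theorem reiter_bridged (G : SimpleGraph V) (hG : G.Connected) (hI : NoIso G) (N : ℕ)
    (hN : ∀ v : V, ∀ T : Finset V, (∀ w ∈ T, G.Adj v w) → T.card ≤ N) (ε : ℝ) (hε : 0 < ε) :
    ∃ (S : ℕ) (ξ : V → lp (fun _ : V => ℝ) 1),
      (∀ x w, 0 ≤ (ξ x : V → ℝ) w) ∧ (∀ x, ‖ξ x‖ = 1) ∧
      (∀ x w, (ξ x : V → ℝ) w ≠ 0 → G.dist x w ≤ S) ∧
      (∀ x y, G.Adj x y → ‖ξ x - ξ y‖ ≤ ε) := by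
  classical
  obtain ⟨v0⟩ := hG.nonempty
  have hs := ord_sto G v0
  let _ : LinearOrder V := linearOrderOfSTO (ord G v0)
  obtain ⟨nb, hnb, hcard⟩ := finite_nb (lvl G v0) N (fun v T hT => hN v T (fun w hw => (hT w hw).1))
  refine reiter (G := G) (Γ := lvl G v0) (nb := nb) (f := fath G v0) hnb (fath_h1 hG hI) ?_
    (fath_h3 hG hI) N hcard hG (fun x y h => h.1) (fath_dist hG) ?_ ε hε
  · intro x y hxy hlt
    rcases fath_h2 hG hI x y hxy hlt with h | h
    · exact le_of_eq h
    · exact le_of_lt h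
  · intro x y hxy
    have hl := lev_adj (v0 := v0) hG hxy
    rcases lt_trichotomy (G.dist v0 x) (G.dist v0 y) with h | h | h
    · right; right
      exact fath_h4 hG hI y x hxy.symm (by omega)
    · left; exact ⟨hxy, h⟩
    · right; left
      exact fath_h4 hG hI x y hxy (by omega)

end main

end Pool.Agent.Helper32.Bridged
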